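import Pool.Agent.W560.Coiso.Iso
set_option autoImplicit false

/-! # Coisotropic capacities in all dimensions: statements of the steps -/

open MeasureTheory Set
open scoped Matrix ENNReal

namespace Pool.Agent.Y507.Coi

open Pool.Agent.W560.Coiso

/-- the polytope `κ i ⬝ q ≤ r` -/
def QS {n : ℕ} {I : Type} (κ : I → Fin n → ℝ) (r : ℝ) : Set (Fin n → ℝ) :=
  {q | ∀ i, κ i ⬝ᵥ q ≤ r}

/-- the half `p_n ≥ 0` of the polytope `τ j ⬝ p ≤ 1` -/
def PS {k : ℕ} {J : Type} (τ : J → Fin (k + 1) → ℝ) : Set (Fin (k + 1) → ℝ) :=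
  {p | (∀ j, τ j ⬝ᵥ p ≤ 1) ∧ 0 ≤ p (Fin.last k)}

/-- facets of the pentagon `K` -/
noncomputable def pk : Fin 5 → Fin 2 → ℝ :=
  ![![1, 1], ![psi - 1, 1], ![-2 * psi, psi - 1], ![psi - 1, -2 * psi], ![1, psi - 1]]

/-- facets of the pentagon `T` -/
noncomputable def pt : Fin 5 → Fin 2 → ℝ :=
  ![![1 + psi, -(1 + psi)], ![1 + psi, psi], ![-psi, 2], ![-2, psi], ![-psi, -(1 + psi)]]

/-- two coordinates in front -/
def two {k : ℕ} (u : Fin 2 → ℝ) (w : Fin (k + 1) → ℝ) : Fin (k + 3) → ℝ :=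
  Fin.cons (u 0) (Fin.cons (u 1) w : Fin (k + 2) → ℝ)

/-- one coordinate in front -/
def one {k : ℕ} (u : ℝ) (w : Fin (k + 1) → ℝ) : Fin (k + 2) → ℝ := Fin.cons u w

/-- the facets of the sum with the pentagon `K` -/
noncomputable def kp {k : ℕ} {I : Type} (κ : I → Fin (k + 1) → ℝ) : Fin 5 × I → Fin (k + 3) → ℝ :=
  fun x => two (pk x.1) (κ x.2)

/-- the facets of the product with the pentagon `T` -/
noncomputable def tp {k : ℕ} {J : Type} (τ : J → Fin (k + 1) → ℝ) : Fin 5 ⊕ J → Fin (k + 3) → ℝ :=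
  Sum.elim (fun a => two (pt a) 0) (fun j => two 0 (τ j))

/-- the facets of the sum with the interval `[-1, 1]` -/
def ki {k : ℕ} {I : Type} (κ : I → Fin (k + 1) → ℝ) : Bool × I → Fin (k + 2) → ℝ :=
  fun x => one (if x.1 then 1 else -1) (κ x.2)

/-- the facets of the product with the interval `[-(1+2ψ)/4, (1+2ψ)/4]` -/
noncomputable def ti {k : ℕ} {J : Type} (τ : J → Fin (k + 1) → ℝ) : Bool ⊕ J → Fin (k + 2) → ℝ :=
  Sum.elim (fun a => one ((if a then 1 else -1) * (4 / (1 + 2 * psi))) 0) (fun j => one 0 (τ j))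

/-- base: the interval `[-1, 1]` -/
def kb : Bool → Fin (0 + 1) → ℝ := fun a _ => if a then 1 else -1

/-- base: the interval `[-(1+2ψ)/2, (1+2ψ)/2]` -/
noncomputable def tb : Bool → Fin (0 + 1) → ℝ :=
  fun a _ => (if a then 1 else -1) * (2 / (1 + 2 * psi))

/-- ISOP -/
def S_ISOP : Prop := ∀ (k : ℕ) (I J : Type) [Fintype I] [Fintype J] (κ : I → Fin (k + 1) → ℝ)
  (τ : J → Fin (k + 1) → ℝ), Iso κ τ (1 + 2 * psi) →
    Iso (k := k + 2) (kp κ) (tp τ) (1 + 2 * psi)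

/-- ISOI -/
def S_ISOI : Prop := ∀ (k : ℕ) (I J : Type) [Fintype I] [Fintype J] (κ : I → Fin (k + 1) → ℝ)
  (τ : J → Fin (k + 1) → ℝ), Iso κ τ (1 + 2 * psi) →
    Iso (k := k + 1) (ki κ) (ti τ) (1 + 2 * psi)

/-- ISOB -/
def S_ISOB : Prop := Iso (k := 0) kb tb (1 + 2 * psi)

/-- SCA -/
def S_SCA : Prop := ∀ (k : ℕ) (I : Type) [Fintype I] [Nonempty I] (κ : I → Fin (k + 1) → ℝ),
  Bornology.IsBounded (QS κ 1) → ∀ r : ℝ, r ≤ 1 →
    volume (QS κ r) ≤ ENNReal.ofReal ((max r 0) ^ (k + 1)) * volume (QS κ 1)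

/-- VQP -/
def S_VQP : Prop := S_SCA → ∀ (k : ℕ) (I : Type) [Fintype I] [Nonempty I]
  (κ : I → Fin (k + 1) → ℝ), Bornology.IsBounded (QS κ 1) →
    Bornology.IsBounded (QS (kp κ) 1) ∧
    ENNReal.ofReal (((k : ℝ) + 2) * (k + 3)) * volume (QS (kp κ) 1) ≤
      ENNReal.ofReal 5 * volume (QS κ 1)

/-- VQI -/
def S_VQI : Prop := S_SCA → ∀ (k : ℕ) (I : Type) [Fintype I] [Nonempty I]
  (κ : I → Fin (k + 1) → ℝ), Bornology.IsBounded (QS κ 1) →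
    Bornology.IsBounded (QS (ki κ) 1) ∧
    ENNReal.ofReal ((k : ℝ) + 2) * volume (QS (ki κ) 1) ≤ ENNReal.ofReal 2 * volume (QS κ 1)

/-- VPP -/
def S_VPP : Prop := ∀ (k : ℕ) (J : Type) [Fintype J] (τ : J → Fin (k + 1) → ℝ),
  Bornology.IsBounded (QS τ 1) → Bornology.IsBounded (QS (tp τ) 1) ∧
    volume (PS (k := k + 2) (tp τ)) ≤ ENNReal.ofReal (5 / 2 * psi ^ 2) * volume (PS τ)

/-- VPI -/
def S_VPI : Prop := ∀ (k : ℕ) (J : Type) [Fintype J] (τ : J → Fin (k + 1) → ℝ),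
  Bornology.IsBounded (QS τ 1) → Bornology.IsBounded (QS (ti τ) 1) ∧
    volume (PS (k := k + 1) (ti τ)) ≤ ENNReal.ofReal ((1 + 2 * psi) / 2) * volume (PS τ)

end Pool.Agent.Y507.Coi
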